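import Pool.Agent.Run7.h641.SV.Main
import Pool.Agent.Run7.h641.AP.FA
import Pool.Agent.Run7.h641.AP.FB
import Pool.Agent.Run7.h641.AP.FC
import Pool.Agent.Run7.h379.AP.DG

/-!
# The Galois orbits of almost all special points of a product of Shimura varieties with small Weyl sums

Let `S = ∏ S_b` be a product of `n ≥ 1` connected components of Shimura varieties, defined over the number field `E` (this is a
component of the Shimura variety of the product of the Shimura data, and the Haar measure of `S` is the product of those of the
`S_b`). The special points of `S_b` with the Galois action are given by the structure `SpecialPoints` of helper293 (Shimura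
reciprocity). They are divided into finite packets, stable under the Galois group, for example the points with a given discriminant; an
abelian group `A` acts on each packet, the Galois group of `E₁` and the reflex field acts through `A` (`Packets`), and the Weyl
sums of the packets against the characters of `A` are small compared with the index of the image of the Galois group in `A` (`Weyl`).

**Theorem.** There is a set `Z` of special points of `S` such that

1. `Z` has density zero, uniformly: for every `ε > 0` there is `R` such that for all packets `δ 1, …, δ n` of discriminants at least `R` at
   most the part `ε` of the special points in the product of these packets lies in `Z`;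
2. the Galois orbits of every sequence of special points outside of `Z`, such that the discriminants of all coordinates tend
   to infinity, are equidistributed in `S`;
3. the conclusion of Q1 holds for all sequences outside of `Z` which are strict in each coordinate.

No hypothesis on the joint distribution of the coordinates is made, in particular the reflex fields of the coordinates may be the
same. For Shimura curves over totally real fields, in particular modular curves, the special points are the CM points, the packets consist of
the points with complex multiplication by the same order (and the same local data at the level), `A` is the image of the Galois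
group (`κ = 1`), and `Weyl` is a published consequence of subconvexity (Duke 1988; Duke, Friedlander and Iwaniec; Zhang 2005; Harcos
and Michel 2006; Michel and Venkatesh 2010). So the theorem holds for products of Shimura curves over totally real fields.

Idea of the proof. The second moment over the product of the packets of the difference between the mean over the Galois orbit of
a product of functions and its integral is bounded by a sum over the elements of the Galois group of products of correlations. All but
one of the correlations are bounded trivially, and the mean of the absolute values of the remaining one is small by Fourier analysis on the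
group `A`. This extends `MP_ad7a55_nt.AlmostAllSpecialPoints` (modular curves over `ℚ`; the pieces `FA`, `FB`, `FC`, `DG` and
`avg_core` are from there: helper903, helper379, helper921).
-/

set_option autoImplicit false

namespace Pool.Agent.Results.MP_9177b7_ag.AlmostAllSpecialPointsOfProducts

open Pool.Agent.Run7.h293.EQ Pool.Agent.Run7.h641.SV MeasureTheory Filter Topology

section

variable {k L : Type} [Field k] [Field L] [Algebra k L] {c₀ : GQ k L} {E E₁ : IntermediateField k L} {n : ℕ} {S : Fin n → Type}

/-- the set `Z` of special points of the product has density zero: for every `ε > 0` there is `R` such that in all products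
of packets of size at least `R` at most the part `ε` of the points lies in `Z` -/
def DensityZero {D : ∀ b, SpecialPoints c₀ E E₁ (S b)} (P : ∀ b, Packets (D b)) (Z : Set (∀ b, (D b).pts)) : Prop :=
  ∀ ε : ℝ, 0 < ε → ∃ R : ℝ, ∀ δ : ∀ b, (P b).Label, (∀ b, R ≤ (P b).size (δ b)) →
    ({x : ∀ b, (D b).pts | x ∈ Z ∧ ∀ b, (P b).label (x b) = δ b}.ncard : ℝ) ≤
      ε * ({x : ∀ b, (D b).pts | ∀ b, (P b).label (x b) = δ b}.ncard : ℝ)

/-- the Galois orbits of the special points `x i` of the product are equidistributed -/
def Equidistributed [∀ b, TopologicalSpace (S b)] [∀ b, MeasurableSpace (S b)] (m : ∀ b, Measure (S b))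
    (D : ∀ b, SpecialPoints c₀ E E₁ (S b)) (x : ℕ → ∀ b, (D b).pts) : Prop :=
  ∀ f : C((∀ b, S b), ℝ), HasCompactSupport f →
    Tendsto (fun i => avg (MulAction.orbit E.fixingSubgroup (x i)) fun y => f fun b => (y b : S b)) atTop
      (𝓝 (∫ s, f s ∂(Measure.pi m)))

end

/-- **The Galois orbits of almost all special points of a product of Shimura varieties are equidistributed.** -/
theorem result (k L : Type) [Field k] [Field L] [Algebra k L] [CharZero k] [IsAlgClosure k L]
    (c₀ : GQ k L) (E E₁ : IntermediateField k L) (hE : E ≤ E₁) {n : ℕ} (hn : 0 < n)
    (S : Fin n → Type) [∀ b, TopologicalSpace (S b)] [∀ b, T2Space (S b)]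
    [∀ b, LocallyCompactSpace (S b)] [∀ b, SecondCountableTopology (S b)]
    [∀ b, MeasurableSpace (S b)] [∀ b, BorelSpace (S b)] (m : ∀ b, Measure (S b))
    [∀ b, IsProbabilityMeasure (m b)] (D : ∀ b, SpecialPoints c₀ E E₁ (S b))
    (P : ∀ b, Packets (D b)) (hW : ∀ b, (P b).Weyl (m b)) :
    ∃ Z : Set (∀ b, (D b).pts),
      -- 1. the set `Z` has density zero
      DensityZero P Z ∧
      -- 2. all sequences outside of `Z` with discriminants which tend to infinity
      (∀ x : ℕ → ∀ b, (D b).pts, (∀ᶠ i in atTop, x i ∉ Z) →
        (∀ b, Tendsto (fun i => (P b).size ((P b).label (x i b))) atTop atTop) → Equidistributed m D x) ∧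
      -- 3. the conclusion of Q1 for all sequences outside of `Z` which are strict in each coordinate
      ((∀ b, ∀ p : (D b).pts, {(p : S b)} ∈ (D b).subvarieties) →
        ∀ x : ℕ → ∀ b, (D b).pts, (∀ᶠ i in atTop, x i ∉ Z) → (∀ b, (D b).Strict fun i => x i b) →
          Equidistributed m D x) :=
  main2 m P Pool.Agent.Run7.h641.AP.FA.t_FA Pool.Agent.Run7.h641.AP.FB.t_FB Pool.Agent.Run7.h641.AP.FC.t_FC
    Pool.Agent.Run7.h641.AP.DG.t_DG hE hn hW

end Pool.Agent.Results.MP_9177b7_ag.AlmostAllSpecialPointsOfProducts
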