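import Pool.Agent.Run7.h293.EQ.Shim

/-!
# Joint equidistribution of Galois orbits of special points on products of Shimura varieties

Let `S = ∏ S_b` be a finite product of connected components of Shimura varieties, all defined
over the number field `E` (this is a component of the Shimura variety of the product of the Shimura data, and
the Haar measure of `S` is the product of those of the `S_b`). A special point of `S` is a tuple
`x = (x_b)` of special points. Shimura's reciprocity law has two consequences for the Galois
orbits, which are recorded in `SpecialPoints`: let `F_x` be the Galois closure of the reflex field of the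
special point `x` (a CM field; the imaginary quadratic field of complex multiplication for modular curves) and `E₁`
a suitable number field which depends only on `S_b`; then

* an automorphism `h` which fixes `E₁` and `F_x` acts on `x` through the Galois group of the largest abelian
  extension of `F_x`; hence `c h c⁻¹` and `h` act in the same way if `c` fixes `F_x`;
* `c h c⁻¹` acts as `h⁻¹` on `x` if `c` acts on `F_x` as complex conjugation.

`Independent` means: for `b ≠ b'` the intersection of the fields of `x_b` and `x_b'` is totally real; for
imaginary quadratic fields: the fields are pairwise different.

**Theorem 1 (Galois orbits are almost products).** If `x` is independent, its Galois orbit contains the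
product of the orbits of the `x_b` under the group generated by the powers `h ^ (2 ^ (n - 1))`, where `n` is the number of
factors and `h` runs through the automorphisms which fix `E₁` and the fields of all the `x_b`.

**Theorem 2.** Let `x_i` be a sequence of independent special points of `S` such that for
each `b` the large suborbits of the coordinates `x_{i,b}` are equidistributed in `S_b` (`LargeSuborbits`). Then the large
suborbits of the `x_i`, in particular their Galois orbits, are equidistributed in `S`.

**Theorem 3.** If Q1 holds for each factor `S_b` in the strong form (for large suborbits), then the conclusion of Q1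
holds for all strict sequences of independent special points of `S`. (If every proper special subvariety of `S`
contains only finitely many terms of the sequence, this holds for the coordinates.)

A subgroup is large if it contains the powers `h ^ (2 ^ k)` of the elements `h` of a normal subgroup
of index at most `C` which fix the field of `x` (`k`, `C` fixed along the sequence). By genus theory
the index of such a suborbit for points of a modular or Shimura curve is `D ^ o(1)`, where `D` is the discriminant of
the point, and the strong form of Q1 is known for these curves (Duke, Harcos and Michel, Zhang, Michel and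
Venkatesh). So Q1 holds for products of modular curves and sequences of special points with pairwise
different CM fields, and for products of Shimura curves over totally real fields and independent special points. In general the
theorem reduces Q1 for products to sequences of points whose coordinates have related fields.
-/

set_option autoImplicit false

namespace Pool.Agent.Results.MP_9177b7_ag.ProductsOfShimuraVarieties

open Run7.h293.EQ MeasureTheory Filter Topology

/-- **Joint equidistribution of Galois orbits on products of Shimura varieties.** -/
theorem result (k L : Type) [Field k] [Field L] [Algebra k L] [CharZero k] [IsAlgClosure k L]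
    (c₀ : GQ k L) (E E₁ : IntermediateField k L) [FiniteDimensional k E₁] [IsGalois k E₁]
    (hE : E ≤ E₁) (ι : Type) [Fintype ι] [DecidableEq ι]
    (S : ι → Type) [∀ b, TopologicalSpace (S b)] [∀ b, T2Space (S b)]
    [∀ b, LocallyCompactSpace (S b)] [∀ b, SecondCountableTopology (S b)]
    [∀ b, MeasurableSpace (S b)] [∀ b, BorelSpace (S b)] (m : ∀ b, Measure (S b))
    [∀ b, IsProbabilityMeasure (m b)] (D : ∀ b, SpecialPoints c₀ E E₁ (S b)) :
    -- 1. Galois orbits are almost products
    (∀ x : ∀ b, (D b).pts, Independent D x → ∀ z : ∀ b, (D b).pts,
      (∀ b, z b ∈ MulAction.orbit (powers E.fixingSubgroup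
        (E₁.fixingSubgroup ⊓ ⨅ b, (D b).fixing (x b)) (2 ^ (Fintype.card ι - 1))) (x b)) →
      z ∈ MulAction.orbit E.fixingSubgroup x) ∧
    -- 2. joint equidistribution
    (∀ x : ℕ → ∀ b, (D b).pts, (∀ i, Independent D (x i)) →
      (∀ b, (D b).LargeSuborbits (m b) fun i => x i b) →
        SubOrbits E.fixingSubgroup (Measure.pi m) (fun (y : ∀ b, (D b).pts) b => (y b : S b))
          (fun y => ⨅ b, (D b).fixing (y b)) x ∧
        ∀ f : C((∀ b, S b), ℝ), HasCompactSupport f →
          Tendsto (fun i => avg (MulAction.orbit E.fixingSubgroup (x i))
            fun y => f fun b => (y b : S b)) atTop (𝓝 (∫ s, f s ∂(Measure.pi m)))) ∧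
    -- 3. Q1 for strict sequences of independent special points
    ((∀ b, (D b).StrongQ1 (m b)) → ∀ x : ℕ → ∀ b, (D b).pts, (∀ i, Independent D (x i)) →
      (∀ b, (D b).Strict fun i => x i b) → ∀ f : C((∀ b, S b), ℝ), HasCompactSupport f →
        Tendsto (fun i => avg (MulAction.orbit E.fixingSubgroup (x i))
          fun y => f fun b => (y b : S b)) atTop (𝓝 (∫ s, f s ∂(Measure.pi m)))) := by
  have h2 : ∀ x : ℕ → ∀ b, (D b).pts, (∀ i, Independent D (x i)) →
      (∀ b, (D b).LargeSuborbits (m b) fun i => x i b) →
        SubOrbits E.fixingSubgroup (Measure.pi m) (fun (y : ∀ b, (D b).pts) b => (y b : S b))
          (fun y => ⨅ b, (D b).fixing (y b)) x ∧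
        ∀ f : C((∀ b, S b), ℝ), HasCompactSupport f →
          Tendsto (fun i => avg (MulAction.orbit E.fixingSubgroup (x i))
            fun y => f fun b => (y b : S b)) atTop (𝓝 (∫ s, f s ∂(Measure.pi m))) := by
    intro x hx h
    have h3 := joint hE m D x hx h
    exact ⟨h3, fun f hf => galois_orbits hE h3 f hf⟩
  refine ⟨?_, h2, fun h x hx hs f hf => (h2 x hx fun b => h b _ (hs b)).2 f hf⟩
  intro x hx z hz
  exact almost_product hE D x hx z hz

end Pool.Agent.Results.MP_9177b7_ag.ProductsOfShimuraVarieties
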